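import Pool.Agent.Lib.MP_fb3619_al.Base3

set_option autoImplicit false

/-! ROTA: conjugation by `α ∈ J_a` is additive on the coordinates of the points of type `a`. -/

universe u

namespace Pool.Agent.FourGp.H82

open Equiv

open Pool.Agent.FourGp

variable {G : Type u} [Group G] {H K : Subgroup G} {a b c : G}

/-- The translation with the coordinates `u`. -/
theorem exists_tau (htran : TranS.{u}) (h : Cfg H K a b c) (x : J h) (y : J h.rot.rot) :
    ∃ τ : Perm (Pt H) × Perm (Pt H),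
      (∀ σ : Perm (Pt H) × Perm (Pt H), (inc H K).Col σ → σ.2 h.pa = h.pa →
        σ * τ * σ⁻¹ ∈ (inc H K).NN h.pa) ∧ τ ∈ (inc H K).NN h.pa ∧
      ∀ z γ β, IsC h z γ β → IsC h (τ.1 z) (x + γ) (y + β) := by
  obtain ⟨φ, hφ, e1, -⟩ := J.exists_trl h.rot.rot y
  obtain ⟨ψ, hψ, e2, -⟩ := J.exists_trl' h x
  obtain ⟨t1, t2⟩ := htran G H K a b c h
  have hφ' : φ ∈ (inc H K).Nn h.pc h.pa := hφ
  refine ⟨φ * ψ, ?_, ?_, ?_⟩
  · intro σ hσ hs
    have h1 := (part1_eqv _ _ h.geo).1 σ hσ _ _ φ hφ'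
    have h2 := (part1_eqv _ _ h.geo).1 σ hσ _ _ ψ hψ
    rw [hs] at h1 h2
    have h3 : σ * (φ * ψ) * σ⁻¹ = (σ * φ * σ⁻¹) * (σ * ψ * σ⁻¹) := by group
    rw [h3]
    exact Subgroup.mul_mem _ (Subgroup.subset_closure ⟨_, h1⟩) (Subgroup.subset_closure ⟨_, h2⟩)
  · exact Subgroup.mul_mem _ (Subgroup.subset_closure ⟨_, hφ'⟩)
      (Subgroup.subset_closure ⟨_, hψ⟩)
  · intro z γ β i
    exact (t1 φ hφ' y e1).1 _ _ _ (t2 ψ hψ x e2 z γ β i)

theorem rota (hcoor : CoorS.{u}) (htran : TranS.{u}) : RotaS.{u} := by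
  intro G _ H K a b c h α
  obtain ⟨c1, c2, c3, c4, c5, c6, -⟩ := hcoor G H K a b c h
  have hg := h.geo
  -- the collineation
  have hσ : (inc H K).Col (cjJ h.rot α, cjJ h.rot α) := part1_cjc G H K a b c h ⟨α.1, α.memH⟩
  have hpa : cjJ h.rot α h.pa = h.pa := by
    apply Subtype.ext
    rw [cjJ_val]
    change α.1⁻¹ * a * α.1 = a
    rw [mul_assoc, ← α.2.2, ← mul_assoc, inv_mul_cancel, one_mul]
  generalize cjJ h.rot α = s at hσ hpa
  have hsim : ∀ z, (inc H K).sim h.pa z → (inc H K).sim h.pa (s z) := by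
    intro z hz
    have h1 := ((part1_eqv _ _ hg).2.2 _ hσ _ _ hz).1
    change (inc H K).sim (s h.pa) (s z) at h1
    rwa [hpa] at h1
  have h00 : IsC h h.pa 0 0 := by
    have h1 := c6 0
    rwa [J.ap_zero] at h1
  -- the map on coordinates
  have hR : ∀ u : J h × J h.rot.rot, ∃ v : J h × J h.rot.rot,
      ∀ z, IsC h z u.1 u.2 → IsC h (s z) v.1 v.2 := by
    intro u
    obtain ⟨z, hz⟩ := c2 u.1 u.2
    obtain ⟨γ, β, i⟩ := c1 _ (hsim _ (c3 _ _ _ hz))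
    refine ⟨(γ, β), fun z' hz' => ?_⟩
    rw [c5 z' z _ _ hz' hz]
    exact i
  choose R hR using hR
  have hadd : ∀ u v, R (u + v) = R u + R v := by
    intro u v
    obtain ⟨τ, ht1, ht2, ht3⟩ := exists_tau htran h u.1 u.2
    obtain ⟨τ', -, ht2', ht3'⟩ := exists_tau htran h (R v).1 (R v).2
    obtain ⟨z, hz⟩ := c2 v.1 v.2
    have k1 := hR v z hz
    -- `s z = τ' pa`
    have k2 : s z = τ'.1 h.pa := by
      refine c5 _ _ _ _ k1 ?_
      have := ht3' _ _ _ h00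
      rwa [add_zero, add_zero] at this
    -- `τ pa` has coordinates `u`
    have k3 : IsC h (τ.1 h.pa) u.1 u.2 := by
      have := ht3 _ _ _ h00
      rwa [add_zero, add_zero] at this
    have k4 : IsC h (s (τ.1 h.pa)) (R u).1 (R u).2 := hR u _ k3
    have k5 : IsC h (τ.1 z) (u + v).1 (u + v).2 := ht3 _ _ _ hz
    have k6 : IsC h (s (τ.1 z)) (R (u + v)).1 (R (u + v)).2 := hR _ _ k5
    -- commuting
    have k7 := part1_ncom _ _ hg h.lemF h.pa _ _ (ht1 (s, s) hσ hpa) ht2' h.pa (hg.st_refl _)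
    have k8 : ∀ w, (((s, s) * τ * (s, s)⁻¹ : Perm (Pt H) × Perm (Pt H)).1) (s w) = s (τ.1 w) := by
      intro w
      change s (τ.1 (s.symm (s w))) = s (τ.1 w)
      rw [Equiv.symm_apply_apply]
    have k9 : (((s, s) * τ * (s, s)⁻¹ : Perm (Pt H) × Perm (Pt H)).1) h.pa = s (τ.1 h.pa) := by
      have := k8 h.pa
      rwa [hpa] at this
    rw [k9, ← k2, k8 z] at k7
    have k10 : IsC h (s (τ.1 z)) ((R v).1 + (R u).1) ((R v).2 + (R u).2) := by
      rw [k7]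
      exact ht3' _ _ _ k4
    obtain ⟨e1, e2⟩ := c4 _ _ _ _ _ k6 k10
    refine Prod.ext ?_ ?_
    · rw [e1, add_comm]; rfl
    · rw [e2, add_comm]; rfl
  exact ⟨AddMonoidHom.mk' R hadd, fun z γ β i => hR (γ, β) z i⟩

end Pool.Agent.FourGp.H82
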